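import Pool.Agent.KS6_67.PC.Diff

set_option autoImplicit false

/-!
# `{x, x+d, x+1/d, x+d+1/d}` and cubes whose steps have a given product: every field

The pattern of the question is not partition regular over any field: four colours avoid it in
characteristic 0 and 2, five in every other characteristic. More generally, for `k ≥ 2` and `l ≠ 0`,
the `k`-dimensional cubes `{x + ∑ i ∈ S, d i : S ⊆ {1, ..., k}}` with `d 1 * ... * d k = l` are
avoided by `2^k` colours over every commutative `ℚ`-algebra and by `2^k + 1` colours over every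
commutative algebra over a field with `p > k` elements.
-/

namespace Pool.Agent.Results.MP_b33253_co.EveryFieldAndCube

open Pool.Agent.KS6_67.PC

/-- The colouring `c` of the field `F` avoids the pattern: there are no `x` and no `d ≠ 0` such that
`x`, `x + d`, `x + 1/d`, `x + d + 1/d` have the same colour. -/
def AvoidsPattern {F : Type} [Field F] {κ : Type} (c : F → κ) : Prop :=
  ∀ x d : F, d ≠ 0 → ¬ (c (x + d) = c x ∧ c (x + 1 / d) = c x ∧ c (x + d + 1 / d) = c x)

/-- The colouring `c` of the ring `R` avoids the `k`-dimensional cubes whose steps have the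
product `l`: there are no `x` and `d 0, ..., d (k - 1)` with `∏ d i = l` such that all sums
`x + ∑ i ∈ S, d i`, `S` a set of indices, have the same colour. -/
def AvoidsCubes {R : Type} [CommRing R] {κ : Type} (k : ℕ) (l : R) (c : R → κ) : Prop :=
  ∀ (x : R) (d : Fin k → R), ∏ i, d i = l → ¬ ∀ S : Finset (Fin k), c (x + ∑ i ∈ S, d i) = c x

lemma AvoidsCubes.pattern {F : Type} [Field F] {κ : Type} {c : F → κ} (h : AvoidsCubes 2 1 c) :
    AvoidsPattern c := by
  rintro x d hd ⟨h1, h2, h3⟩
  refine h x ![d, 1 / d] (by simp [hd]) fun S => ?_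
  have hS : S = ∅ ∨ S = {0} ∨ S = {1} ∨ S = {0, 1} := by
    revert S; decide
  rcases hS with rfl | rfl | rfl | rfl
  · simp
  · simpa using h1
  · simpa using h2
  · rw [Finset.sum_pair (by decide), ← add_assoc]
    simpa using h3

/-- **Theorem.**
(1) For every field `F` there is a colouring of `F` with five colours which avoids the pattern
`{x, x + d, x + 1/d, x + d + 1/d}`; four colours are enough if the characteristic is `0` or `2`.
(2) For every commutative `ℚ`-algebra `R`, `k ≥ 1` and `l ≠ 0` in `R` there is a colouring of `R`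
with `2 ^ k` colours which avoids the `k`-dimensional cubes whose steps have the product `l`.
(3) The same with `2 ^ k + 1` colours for commutative algebras over `ℤ/p`, `p > k ≥ 2` prime. -/
theorem result :
    (∀ (F : Type) [Field F], (∃ c : F → Fin 5, AvoidsPattern c) ∧
      (CharP F 0 ∨ CharP F 2 → ∃ c : F → Fin 4, AvoidsPattern c)) ∧
    (∀ (R : Type) [CommRing R] [Algebra ℚ R] (l : R), l ≠ 0 → ∀ k : ℕ, 1 ≤ k →
      ∃ c : R → Fin (2 ^ k), AvoidsCubes k l c) ∧
    (∀ p : ℕ, p.Prime → ∀ (R : Type) [CommRing R] [Algebra (ZMod p) R] (l : R), l ≠ 0 →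
      ∀ k : ℕ, 2 ≤ k → k < p → ∃ c : R → Fin (2 ^ k + 1), AvoidsCubes k l c) := by
  have h2 : ∀ (R : Type) [CommRing R] [Algebra ℚ R] (l : R), l ≠ 0 → ∀ k : ℕ, 1 ≤ k →
      ∃ c : R → Fin (2 ^ k), AvoidsCubes k l c := by
    intro R _ _ l hl k hk
    obtain ⟨k, rfl⟩ : ∃ j, k = j + 1 := ⟨k - 1, by omega⟩
    obtain ⟨c, hc⟩ := char_zero hl k
    refine ⟨fun x => (ZMod.finEquiv (2 ^ (k + 1))).symm (c x), fun x d hd hS => hc x d hd ?_⟩
    exact fun S => (ZMod.finEquiv (2 ^ (k + 1))).symm.injective (hS S)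
  have h3 : ∀ p : ℕ, p.Prime → ∀ (R : Type) [CommRing R] [Algebra (ZMod p) R] (l : R), l ≠ 0 →
      ∀ k : ℕ, 2 ≤ k → k < p → ∃ c : R → Fin (2 ^ k + 1), AvoidsCubes k l c := by
    intro p hp R _ _ l hl k hk hkp
    obtain ⟨k, rfl⟩ : ∃ j, k = j + 1 := ⟨k - 1, by omega⟩
    have : Fact p.Prime := ⟨hp⟩
    exact char_p p hl k (by omega) hkp
  have h4 : ∀ (F : Type) [Field F], (CharP F 0 ∨ CharP F 2 → ∃ c : F → Fin 4, AvoidsPattern c) := by
    intro F _ hF
    rcases hF with hF | hF
    · have : CharZero F := CharP.charP_to_charZero F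
      obtain ⟨c, hc⟩ := h2 F 1 one_ne_zero 2 (by norm_num)
      exact ⟨c, hc.pattern⟩
    · let _ : Algebra (ZMod 2) F := ZMod.algebra F 2
      obtain ⟨c, hc⟩ := char_two (R := F) one_ne_zero
      refine ⟨fun x => (ZMod.finEquiv 4).symm (c x), fun x d hd hS => ?_⟩
      refine hc x d (1 / d) (by field_simp) ⟨?_, ?_, ?_⟩
      · exact (ZMod.finEquiv 4).symm.injective hS.1
      · exact (ZMod.finEquiv 4).symm.injective hS.2.1
      · exact (ZMod.finEquiv 4).symm.injective hS.2.2
  refine ⟨fun F _ => ⟨?_, h4 F⟩, h2, h3⟩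
  have weaken : (∃ c : F → Fin 4, AvoidsPattern c) → ∃ c : F → Fin 5, AvoidsPattern c := by
    rintro ⟨c, hc⟩
    refine ⟨fun x => (c x).castSucc, fun x d hd hS => hc x d hd ⟨?_, ?_, ?_⟩⟩
    · exact Fin.castSucc_injective _ hS.1
    · exact Fin.castSucc_injective _ hS.2.1
    · exact Fin.castSucc_injective _ hS.2.2
  obtain ⟨p, hp⟩ := CharP.exists F
  rcases CharP.char_is_prime_or_zero F p with hp1 | rfl
  · rcases hp1.eq_two_or_odd with rfl | hodd
    · exact weaken (h4 F (Or.inr hp))
    · have hp3 : 2 < p := by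
        have := hp1.two_le
        omega
      let _ : Algebra (ZMod p) F := ZMod.algebra F p
      obtain ⟨c, hc⟩ := h3 p hp1 F 1 one_ne_zero 2 le_rfl hp3
      exact ⟨c, hc.pattern⟩
  · exact weaken (h4 F (Or.inl hp))

end Pool.Agent.Results.MP_b33253_co.EveryFieldAndCube
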